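import Pool.Agent.W559.Wr.StmR

/-!
`FinRStm` of the project Wr, from `ResolRStm`.
-/

set_option autoImplicit false
set_option linter.unusedSectionVars false

open AlgebraicGeometry CategoryTheory TensorProduct

universe u

namespace Pool.Agent.W839.Wr

open Pool.Agent.W559.Wr Pool.Agent.H920R2

/-- Linear disjointness from the injectivity of the map from the tensor power. -/
lemma ldis_of_inj {k K L : Type u} [Field k] [Field K] [Algebra k K] [Field L] [Algebra k L]
    {n : ℕ} (e : Fin n → K →ₐ[k] L) (g : (⨂[k] _ : Fin n, K) →ₐ[k] L)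
    (hg : ∀ i x, g (PiTensorProduct.singleAlgHom (R := k) (A := fun _ : Fin n => K) i x) = e i x)
    (hinj : Function.Injective g) : LDis e := by
  have h : mulM e = g.toLinearMap := by
    apply PiTensorProduct.ext
    apply MultilinearMap.ext
    intro x
    change PiTensorProduct.lift _ (PiTensorProduct.tprod k x) = g (PiTensorProduct.tprod k x)
    have h1 : PiTensorProduct.tprod k x =
        ∏ j, PiTensorProduct.singleAlgHom (R := k) (A := fun _ : Fin n => K) j (x j) := by
      change _ = ∏ j, PiTensorProduct.tprod k (MonoidHom.mulSingle _ j (x j))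
      rw [← PiTensorProduct.tprod_prod]
      congr 1
      exact (Finset.univ_prod_mulSingle x).symm
    rw [PiTensorProduct.lift.tprod, h1, map_prod]
    change MultilinearMap.mkPiAlgebra k (Fin n) L (fun i => e i (x i)) = _
    rw [MultilinearMap.mkPiAlgebra_apply]
    exact Finset.prod_congr rfl fun i _ => (hg i (x i)).symm
  unfold LDis
  rw [h]
  exact hinj

section perm

variable {k A : Type u} [Field k] [CommRing A] [Algebra k A] {n : ℕ}

/-- Two homomorphisms from the tensor power which agree on the factors are equal. -/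
lemma hom_ext {S : Type u} [CommRing S] [Algebra k S] {f f' : (⨂[k] _ : Fin n, A) →ₐ[k] S}
    (h : ∀ i a, f (PiTensorProduct.singleAlgHom (R := k) (A := fun _ : Fin n => A) i a) =
      f' (PiTensorProduct.singleAlgHom (R := k) (A := fun _ : Fin n => A) i a)) : f = f' :=
  (isCoprod_pi (k := k) (A := fun _ : Fin n => A)).ext S f f' h

/-- The permutations of the factors of a tensor power. -/
lemma exists_perm : ∃ T : Equiv.Perm (Fin n) → ((⨂[k] _ : Fin n, A) ≃ₐ[k] (⨂[k] _ : Fin n, A)),
    ∀ π i a, T π (PiTensorProduct.singleAlgHom (R := k) (A := fun _ : Fin n => A) i a) =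
      PiTensorProduct.singleAlgHom (R := k) (A := fun _ : Fin n => A) (π i) a := by
  have h1 : ∀ π : Equiv.Perm (Fin n), ∃ φ : (⨂[k] _ : Fin n, A) →ₐ[k] (⨂[k] _ : Fin n, A),
      ∀ i a, φ (PiTensorProduct.singleAlgHom (R := k) (A := fun _ : Fin n => A) i a) =
        PiTensorProduct.singleAlgHom (R := k) (A := fun _ : Fin n => A) (π i) a := fun π =>
    (isCoprod_pi (k := k) (A := fun _ : Fin n => A)).lift _ fun i =>
      PiTensorProduct.singleAlgHom (R := k) (A := fun _ : Fin n => A) (π i)
  choose φ hφ using h1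
  have h2 : ∀ π π' : Equiv.Perm (Fin n), π * π' = 1 → (φ π).comp (φ π') = AlgHom.id k _ := by
    intro π π' h
    apply hom_ext
    intro i a
    rw [AlgHom.comp_apply, hφ, hφ, ← Equiv.Perm.mul_apply, h]
    rfl
  refine ⟨fun π => AlgEquiv.ofAlgHom (φ π) (φ π⁻¹) (h2 _ _ (mul_inv_cancel π))
    (h2 _ _ (inv_mul_cancel π)), fun π i a => hφ π i a⟩

end perm

theorem finR (hres : ResolRStm.{u}) : FinRStm.{u} := by
  intro k A _ _ _ _ hA n _ P hP S hS
  classical
  have hjA := isCoprod_pi (k := k) (A := fun _ : Fin n => A)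
  let B := ⨂[k] _ : Fin n, A
  let L := FractionRing B
  let gB : B →ₐ[k] L := IsScalarTower.toAlgHom k B L
  have hinj : Function.Injective gB := IsFractionRing.injective B L
  let K := FractionRing A
  let s : Fin n → A →ₐ[k] B := fun i =>
    PiTensorProduct.singleAlgHom (R := k) (A := fun _ : Fin n => A) i
  let gi : Fin n → A →ₐ[k] L := fun i => gB.comp (s i)
  have hgi : ∀ i, Function.Injective (gi i) := fun i => hinj.comp (single_injective i)
  let e : Fin n → K →ₐ[k] L := fun i => IsFractionRing.liftAlgHom (g := gi i) (hgi i)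
  have he : ∀ i a, e i (algebraMap A K a) = gB (s i a) := fun i a =>
    IsFractionRing.lift_algebraMap (hgi i) a
  obtain ⟨g, hg⟩ := (isCoprod_pi (k := k) (A := fun _ : Fin n => K)).lift L e
  have hginj : Function.Injective g := inj_frac K gB hinj e he g hg
  have hdis : LDis e := ldis_of_inj e g hg hginj
  have hadj : Algebra.adjoin k (⋃ i, Set.range (s i)) = ⊤ := coprod_adjoin hjA
  -- the join of the images of `A`
  let A' : Subalgebra k K := (IsScalarTower.toAlgHom k A K).range
  have hrange : (⨆ i, A'.map (e i) : Subalgebra k L) = gB.range := by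
    apply le_antisymm
    · refine iSup_le fun i => ?_
      rintro _ ⟨_, ⟨a, rfl⟩, rfl⟩
      exact ⟨s i a, (he i a).symm⟩
    · rintro _ ⟨z, rfl⟩
      have h2 : z ∈ Algebra.adjoin k (⋃ i, Set.range (s i)) := by
        rw [hadj]; trivial
      change gB z ∈ _
      induction h2 using Algebra.adjoin_induction with
      | mem x hx =>
        obtain ⟨i, a, rfl⟩ := Set.mem_iUnion.1 hx
        have h3 : gB (s i a) ∈ A'.map (e i) := ⟨algebraMap A K a, ⟨a, rfl⟩, he i a⟩
        exact (le_iSup (fun i => A'.map (e i)) i) h3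
      | algebraMap r => rw [AlgHom.commutes]; exact Subalgebra.algebraMap_mem _ r
      | add x y _ _ hx hy => rw [map_add]; exact Subalgebra.add_mem _ hx hy
      | mul x y _ _ hx hy => rw [map_mul]; exact Subalgebra.mul_mem _ hx hy
  have hgen : ⨆ i, (e i).fieldRange = ⊤ := by
    rw [eq_top_iff]
    rintro x -
    have h1 : ∀ z : B, gB z ∈ (⨆ i, (e i).fieldRange : IntermediateField k L) := by
      intro z
      have h2 : gB z ∈ (⨆ i, A'.map (e i) : Subalgebra k L) := by rw [hrange]; exact ⟨z, rfl⟩
      have h3 : (⨆ i, A'.map (e i) : Subalgebra k L) ≤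
          (⨆ i, (e i).fieldRange : IntermediateField k L).toSubalgebra := by
        refine iSup_le fun i => ?_
        rintro _ ⟨y, -, rfl⟩
        exact (le_iSup (fun i => (e i).fieldRange) i) ⟨y, rfl⟩
      exact h3 h2
    obtain ⟨a, c, -, rfl⟩ := IsFractionRing.div_surjective (A := B) x
    exact div_mem (h1 a) (h1 c)
  have hQ := hP K L e hdis hgen A' hA
  -- the permutations
  obtain ⟨T, hT⟩ := exists_perm (k := k) (A := A) (n := n)
  have hTS : ∀ σ : B ≃ₐ[k] B, ∀ π : Equiv.Perm (Fin n), (∀ i a, σ (s i a) = s (π i) a) →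
      σ = T π := by
    intro σ π h
    have h1 : (σ : B →ₐ[k] B) = (T π : B →ₐ[k] B) := by
      apply hom_ext
      intro i a
      exact (h i a).trans (hT π i a).symm
    apply AlgEquiv.ext
    intro x
    exact congrArg (fun f : B →ₐ[k] B => f x) h1
  have hTmul : ∀ π π' b, T π (T π' b) = T (π * π') b := by
    intro π π' b
    have h1 := hTS ((T π').trans (T π)) (π * π') (fun i a => by
      rw [AlgEquiv.trans_apply]
      change T π (T π' (PiTensorProduct.singleAlgHom (R := k) (A := fun _ : Fin n => A) i a)) = _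
      rw [hT, hT]
      rfl)
    rw [← h1]
    rfl
  have hS' : ∀ x, x ∈ S ↔ ∀ π ∈ P, T π x = x := by
    intro x
    rw [hS]
    constructor
    · intro h π hπ
      exact h (T π) ⟨π, hπ, hT π⟩
    · rintro h σ ⟨π, hπ, hσ⟩
      rw [hTS σ π hσ]
      exact h π hπ
  let F : IntermediateField k L := IntermediateField.fixedField (permGrp e P)
  have hF : ∀ x : B, gB x ∈ F ↔ x ∈ S := by
    intro x
    rw [hS']
    constructor
    · intro h π hπ
      let τ : L ≃ₐ[k] L := IsFractionRing.fieldEquivOfAlgEquiv k L L (T π)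
      have hτ : ∀ b, τ (gB b) = gB (T π b) := fun b =>
        IsFractionRing.fieldEquivOfAlgEquiv_algebraMap k L L (T π) b
      have hτe : ∀ i x, τ (e i x) = e (π i) x := by
        intro i x
        obtain ⟨a, c, -, rfl⟩ := IsFractionRing.div_surjective (A := A) x
        have h1 : ∀ a, τ (e i (algebraMap A K a)) = e (π i) (algebraMap A K a) := by
          intro a
          rw [he, he, hτ]
          exact congrArg gB (hT π i a)
        rw [map_div₀, map_div₀, h1, h1, map_div₀]
      have hτP : τ ∈ permGrp e P := ⟨π, hπ, hτe⟩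
      have h2 : τ (gB x) = gB x := h ⟨τ, hτP⟩
      rw [hτ] at h2
      exact hinj h2
    · rintro h ⟨τ, π, hπ, hτ⟩
      have h1 : ((τ : L →ₐ[k] L).comp gB) = gB.comp (T π : B →ₐ[k] B) := by
        apply hom_ext
        intro i a
        change τ (gB (s i a)) = gB (T π (s i a))
        rw [← he, hτ, he]
        exact congrArg gB (hT π i a).symm
      have h2 := congrArg (fun f : B →ₐ[k] L => f x) h1
      change τ (gB x) = gB (T π x) at h2
      rw [h π hπ] at h2
      exact h2
  let gS : S →ₐ[k] F := AlgHom.codRestrict (gB.comp S.val) F.toSubalgebra (fun x => (hF x).2 x.2)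
  have hgS : ∀ x : S, ((gS x : F) : L) = gB x := fun x => rfl
  have hrg : gS.range = (⨆ i, A'.map (e i) : Subalgebra k L).comap F.val := by
    rw [hrange]
    ext x
    constructor
    · rintro ⟨y, rfl⟩
      exact ⟨y, rfl⟩
    · rintro ⟨y, hy⟩
      have hy' : gB y = (x : L) := hy
      have hyS : y ∈ S := by
        rw [← hF, hy']
        exact x.2
      exact ⟨⟨y, hyS⟩, Subtype.ext hy'⟩
  refine hres k S F gS ?_ ?_ ?_
  · intro x y h
    have h1 := congrArg (Subtype.val : F → L) h
    exact Subtype.ext (hinj h1)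
  · intro x
    obtain ⟨a, c, hc, hx⟩ := IsFractionRing.div_surjective (A := B) (x : L)
    have hc0 : c ≠ 0 := nonZeroDivisors.ne_zero hc
    -- the norm of the denominator
    let N : B := ∏ π : P, T π c
    have hN0 : N ≠ 0 := by
      refine Finset.prod_ne_zero_iff.2 fun π _ => ?_
      intro h
      exact hc0 ((T π).injective (by rw [h, map_zero]))
    have hNS : N ∈ S := by
      rw [hS']
      intro π hπ
      change T π (∏ π' : P, T π' c) = ∏ π' : P, T π' c
      rw [map_prod]
      refine Fintype.prod_equiv (Equiv.mulLeft (⟨π, hπ⟩ : P)) _ _ fun π' => ?_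
      rw [hTmul]
      rfl
    obtain ⟨d, hd⟩ : c ∣ N := by
      have h1 : T ((1 : P) : Equiv.Perm (Fin n)) c = c := by
        have h2 := hTS (AlgEquiv.refl) 1 (fun i a => rfl)
        change T 1 c = c
        rw [← h2]
        rfl
      have h3 : T ((1 : P) : Equiv.Perm (Fin n)) c ∣ N :=
        Finset.dvd_prod_of_mem (fun π : P => T π c) (Finset.mem_univ 1)
      rwa [h1] at h3
    have hgN : gB N ≠ 0 := by
      intro h
      exact hN0 (hinj (by rw [h, map_zero]))
    have hgc : gB c ≠ 0 := by
      intro h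
      exact hc0 (hinj (by rw [h, map_zero]))
    have hgd : gB N = gB c * gB d := by rw [hd, map_mul]
    have hgd0 : gB d ≠ 0 := by
      intro h
      rw [h, mul_zero] at hgd
      exact hgN hgd
    have hx' : (x : L) = gB (a * d) / gB N := by
      rw [← hx, map_mul, hgd]
      exact (mul_div_mul_right (gB a) (gB c) hgd0).symm
    have hadS : a * d ∈ S := by
      rw [← hF]
      have h1 : gB (a * d) = (x : L) * gB N := by
        rw [hx', div_mul_cancel₀ _ hgN]
      rw [h1]
      exact F.mul_mem x.2 ((hF N).2 hNS)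
    refine ⟨⟨a * d, hadS⟩, ⟨N, hNS⟩, ?_, ?_⟩
    · intro h
      exact hgN (congrArg (Subtype.val : F → L) h)
    · apply Subtype.ext
      exact hx'
  · rw [hrg]
    exact hQ

end Pool.Agent.W839.Wr
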